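import Pool.Agent.H52.KP.Targets

/-! Common facts for UR and UC. -/

set_option autoImplicit false

open MeasureTheory Metric Set Topology Filter
open scoped RealInnerProductSpace

namespace Pool.Agent.H47.KPO

open Pool.Agent.H52.KP Pool.Agent.H65k

variable {n N : ℕ}

theorem continuous_pw_right (ρ : Fin n → ℝ) (l : Fin n) (c : Fin n → Eu N) :
    Continuous fun y : Eu N => pw ρ l (c, y) :=
  (contDiff_pw ρ l).continuous.comp (continuous_const.prodMk continuous_id)

theorem continuous_pw_left (ρ : Fin n → ℝ) (l : Fin n) (y : Eu N) :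
    Continuous fun c : Fin n → Eu N => pw ρ l (c, y) :=
  (contDiff_pw ρ l).continuous.comp (continuous_id.prodMk continuous_const)

theorem measurable_cnt (ρ : Fin n → ℝ) (s : ℝ) (c : Fin n → Eu N) :
    Measurable fun y : Eu N => cnt ρ s c y := by
  have h : (fun y : Eu N => cnt ρ s c y) =
      fun y => ∑ l, ({y : Eu N | pw ρ l (c, y) ≤ s}).indicator (fun _ => (1 : ℕ)) y := by
    funext y
    unfold cnt
    rw [Finset.card_filter]
    refine Finset.sum_congr rfl fun j _ => ?_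
    simp [indicator]
  rw [h]
  refine Finset.measurable_fun_sum _ fun l _ => measurable_const.indicator ?_
  exact (isClosed_le (continuous_pw_right ρ l c) continuous_const).measurableSet

theorem cnt_le (ρ : Fin n → ℝ) (s : ℝ) (c : Fin n → Eu N) (y : Eu N) : cnt ρ s c y ≤ n := by
  unfold cnt
  exact (Finset.card_filter_le _ _).trans (by simp)

/-- the bound -/
noncomputable def bd (M : ℝ → ℝ) (n : ℕ) : ℝ := ∑ m ∈ Finset.range (n + 1), |M m - M 0|

theorem bd_nonneg (M : ℝ → ℝ) (n : ℕ) : 0 ≤ bd M n :=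
  Finset.sum_nonneg fun _ _ => abs_nonneg _

theorem le_bd (M : ℝ → ℝ) (ρ : Fin n → ℝ) (s : ℝ) (c : Fin n → Eu N) (y : Eu N) :
    |M (cnt ρ s c y) - M 0| ≤ bd M n := by
  unfold bd
  refine Finset.single_le_sum (f := fun m : ℕ => |M m - M 0|) (fun _ _ => abs_nonneg _) ?_
  exact Finset.mem_range.2 (Nat.lt_succ_of_le (cnt_le ρ s c y))

theorem cnt_far (ρ : Fin n → ℝ) (s : ℝ) (c : Fin n → Eu N) (y : Eu N) (R T : ℝ)
    (hc : ‖c‖ ≤ R) (hs : s ≤ T) (hT : 0 ≤ T) (hy : R + (∑ i, |ρ i|) + T + 1 < ‖y‖) :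
    cnt ρ s c y = 0 := by
  unfold cnt
  rw [Finset.card_eq_zero, Finset.filter_eq_empty_iff]
  intro l _
  rw [not_le]
  have h1 : ‖c l‖ ≤ ‖c‖ := norm_le_pi_norm c l
  have h4 : |ρ l| ≤ ∑ i, |ρ i| :=
    Finset.single_le_sum (f := fun i => |ρ i|) (fun _ _ => abs_nonneg _) (Finset.mem_univ l)
  have h5 : |ρ l| + T + 1 < ‖y - c l‖ := by
    have := norm_sub_norm_le y (c l)
    linarith
  have h7 : 0 ≤ |ρ l| := abs_nonneg _
  have h8 : ρ l ^ 2 = |ρ l| ^ 2 := (sq_abs _).symm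
  show s < ‖y - c l‖ ^ 2 - ρ l ^ 2
  rw [h8]
  nlinarith only [h5, h7, hs, hT]

theorem meas_int (M : ℝ → ℝ) (hM : GoodM M) (ρ : Fin n → ℝ) (s : ℝ) (c : Fin n → Eu N) :
    AEStronglyMeasurable (fun y : Eu N => M (cnt ρ s c y) - M 0) volume := by
  have h1 : Measurable M := hM.1.continuous.measurable
  have h2 : Measurable fun y : Eu N => ((cnt ρ s c y : ℕ) : ℝ) :=
    (measurable_from_top (f := fun m : ℕ => (m : ℝ))).comp (measurable_cnt ρ s c)
  exact ((h1.comp h2).sub_const _).aestronglyMeasurable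

theorem integrable_bd (C R : ℝ) :
    Integrable ((closedBall (0 : Eu N) R).indicator fun _ => C) := by
  rw [integrable_indicator_iff isClosed_closedBall.measurableSet]
  exact integrableOn_const (isCompact_closedBall (0 : Eu N) R).measure_lt_top.ne

theorem dom (M : ℝ → ℝ) (ρ : Fin n → ℝ) (s : ℝ) (c : Fin n → Eu N) (R T : ℝ)
    (hc : ‖c‖ ≤ R) (hs : s ≤ T) (hT : 0 ≤ T) (y : Eu N) :
    ‖M (cnt ρ s c y) - M 0‖ ≤
      (closedBall (0 : Eu N) (R + (∑ i, |ρ i|) + T + 1)).indicator (fun _ => bd M n) y := by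
  by_cases hy : y ∈ closedBall (0 : Eu N) (R + (∑ i, |ρ i|) + T + 1)
  · rw [indicator_of_mem hy, Real.norm_eq_abs]
    exact le_bd M ρ s c y
  · rw [indicator_of_notMem hy]
    have hy' : R + (∑ i, |ρ i|) + T + 1 < ‖y‖ := by simpa using hy
    rw [cnt_far ρ s c y R T hc hs hT hy']
    simp

end Pool.Agent.H47.KPO
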