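import Pool.Agent.H47.KPO.QLb

/-! QL: the limit of the smoothed wall measures. -/

set_option autoImplicit false

open MeasureTheory Metric Set Topology Filter
open scoped RealInnerProductSpace

namespace Pool.Agent.H47.KPO

open Pool.Agent.H52.KP Pool.Agent.H65k

variable {n K : ℕ}

theorem hk_bound (M : ℝ → ℝ) (xl : Fin n → Eu K) (zl : Fin n → ℝ) (P : ℝ)
    (i : Fin n) (κ a b Cp CM : ℝ) (hCp : 0 ≤ Cp) (hCM : 0 ≤ CM)
    (hp : ∀ t, |deriv (phk 0) t| ≤ Cp)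
    (hM2 : ∀ t : ℝ, 0 ≤ t → t ≤ n → |deriv (deriv M) t| ≤ CM) (k : ℕ)
    (w : (ℝ × ℝ) × (Eu K × ℝ)) :
    ‖hk k M xl zl P i κ a b w‖ ≤
      (bbox xl i (|b + 1 + ‖xl i‖ ^ 2 + zl i ^ 2 - P| + 1)).indicator
        (fun _ => Cp * Cp * CM) w := by
  have hC : 0 ≤ Cp * Cp * CM := by positivity
  by_cases h0 : hk k M xl zl P i κ a b w = 0
  · rw [h0, norm_zero]
    exact indicator_nonneg (fun _ _ => hC) w
  obtain ⟨⟨u, u'⟩, x, η⟩ := w
  unfold hk at h0 ⊢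
  simp only at h0 ⊢
  have h1 : deriv (phk 0) u ≠ 0 := by
    intro h
    exact h0 (by rw [h, zero_mul, zero_mul])
  have h2 : deriv (phk 0) u' ≠ 0 := by
    intro h
    exact h0 (by rw [h, mul_zero, zero_mul])
  obtain ⟨hu0, hu1⟩ := dphi_supp u h1
  obtain ⟨hv0, hv1⟩ := dphi_supp u' h2
  by_cases h3 : a ≤ gq xl zl P i x ((u' - u) / (2 * κ * ((k : ℝ) + 1))) η - u / ((k : ℝ) + 1) ∧
      gq xl zl P i x ((u' - u) / (2 * κ * ((k : ℝ) + 1))) η - u / ((k : ℝ) + 1) ≤ b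
  · rw [if_pos h3]
    have hk1 : (1 : ℝ) ≤ (k : ℝ) + 1 := by
      have : (0 : ℝ) ≤ k := Nat.cast_nonneg k
      linarith
    have hu : u / ((k : ℝ) + 1) ≤ 1 := (div_le_self hu0 hk1).trans hu1
    have hmem := mem_box xl zl P i x _ η _ b hu h3.2
    have hmem2 : ((u, u'), (x, η)) ∈ bbox xl i (|b + 1 + ‖xl i‖ ^ 2 + zl i ^ 2 - P| + 1) :=
      ⟨⟨⟨hu0, hu1⟩, ⟨hv0, hv1⟩⟩, hmem⟩
    rw [indicator_of_mem hmem2, norm_mul, norm_mul, norm_neg]
    obtain ⟨hs0, hs1⟩ := sum_bd (fun l => phk k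
        (gq xl zl P l x ((u' - u) / (2 * κ * ((k : ℝ) + 1))) η
          - gq xl zl P i x ((u' - u) / (2 * κ * ((k : ℝ) + 1))) η
          + u / ((k : ℝ) + 1))) (fun l => phk_nonneg _ _) (fun l => phk_le_one _ _)
    have h4 := hM2 _ hs0 hs1
    have h5 := hp u
    have h6 := hp u'
    simp only [Real.norm_eq_abs]
    gcongr
  · rw [if_neg h3, mul_zero, norm_zero]
    exact indicator_nonneg (fun _ _ => hC) _

theorem GG_bd (M : ℝ → ℝ) (hM : GoodM M) (xl : Fin n → Eu K) (zl : Fin n → ℝ) (i : Fin n)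
    (κ : ℝ) (q : ℝ × ℝ) (CM : ℝ)
    (hM2 : ∀ t : ℝ, 0 ≤ t → t ≤ n → |deriv (deriv M) t| ≤ CM) (x : Eu K) :
    0 ≤ GG M xl zl i κ q x ∧ GG M xl zl i κ q x ≤ CM := by
  unfold GG
  obtain ⟨h1, h2⟩ := sum_bd (fun l => lam xl zl i κ q x l) (lam_nonneg xl zl i κ q x)
    (lam_le_one xl zl i κ q x)
  constructor
  · exact neg_nonneg.2 (hM.2.1 _)
  · exact (neg_le_abs _).trans (hM2 _ h1 h2)

theorem GG_meas (M : ℝ → ℝ) (hM : GoodM M) (xl : Fin n → Eu K) (zl : Fin n → ℝ) (i : Fin n)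
    (κ : ℝ) (q : ℝ × ℝ) : Measurable (GG M xl zl i κ q) := by
  unfold GG
  refine Measurable.neg ?_
  refine (cont_M2 M hM).measurable.comp ?_
  exact Finset.measurable_fun_sum _ fun l _ => lam_meas xl zl i κ q l

theorem GG_smul (M : ℝ → ℝ) (xl : Fin n → Eu K) (zl : Fin n → ℝ) (i : Fin n)
    (κ : ℝ) (q : ℝ × ℝ) (τ : ℝ) (hτ : 0 < τ) (x : Eu K) :
    GG M xl zl i κ q (τ • x) = GG M xl zl i κ q x := by
  have h : (∑ l, lam xl zl i κ q (τ • x) l) = ∑ l, lam xl zl i κ q x l :=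
    Finset.sum_congr rfl fun l _ => lam_smul xl zl i κ q x l τ hτ
  unfold GG
  rw [h]

theorem Zf_integrable (G : Eu K → ℝ) (hG : Measurable G) (C : ℝ)
    (hC : ∀ x, 0 ≤ G x ∧ G x ≤ C) (xl : Fin n → Eu K) (P : ℝ) (i : Fin n) (s : ℝ) :
    Integrable fun y : Eu K × ℝ => if g0 xl P i y ≤ s then G y.1 else 0 := by
  have hms : MeasurableSet {y : Eu K × ℝ | g0 xl P i y ≤ s} :=
    (isClosed_le (cont_g0 xl P i) continuous_const).measurableSet
  have hC0 : 0 ≤ C := (hC 0).1.trans (hC 0).2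
  refine (integrable_box xl i (|s + 1 + ‖xl i‖ ^ 2 + (0 : ℝ) ^ 2 - P| + 1) C).mono' ?_ ?_
  · exact (Measurable.ite hms (hG.comp measurable_fst) measurable_const).aestronglyMeasurable
  · refine Eventually.of_forall fun y => ?_
    obtain ⟨x, η⟩ := y
    show ‖(if g0 xl P i (x, η) ≤ s then G x else 0 : ℝ)‖ ≤ _
    by_cases h : g0 xl P i (x, η) ≤ s
    · have hm := mem_box xl (fun _ => 0) P i x 0 η 0 s zero_le_one
        (by
          unfold gq
          unfold g0 at h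
          simp only at h
          linarith)
      rw [if_pos h, indicator_of_mem hm, Real.norm_eq_abs, abs_of_nonneg (hC x).1]
      exact (hC x).2
    · rw [if_neg h, norm_zero]
      exact indicator_nonneg (fun _ _ => hC0) _

theorem Zf_eq (G : Eu K → ℝ) (xl : Fin n → Eu K) (P : ℝ) (i : Fin n) (s : ℝ) :
    Zf G (xl i) P s = ∫ y : Eu K × ℝ, if g0 xl P i y ≤ s then G y.1 else 0 := by
  unfold Zf g0
  rfl

theorem inner_eq (M : ℝ → ℝ) (hM : GoodM M) (xl : Fin n → Eu K) (zl : Fin n → ℝ) (P : ℝ)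
    (i : Fin n) (κ a b : ℝ) (hab : a ≤ b) (q : ℝ × ℝ) (CM : ℝ)
    (hM2 : ∀ t : ℝ, 0 ≤ t → t ≤ n → |deriv (deriv M) t| ≤ CM) :
    ∫ y, hl M xl zl P i κ a b (q, y) =
      (deriv (phk 0) q.1 * deriv (phk 0) q.2) *
        (Zf (GG M xl zl i κ q) (xl i) P b - Zf (GG M xl zl i κ q) (xl i) P a) := by
  have hI := Zf_integrable (GG M xl zl i κ q) (GG_meas M hM xl zl i κ q) CM
    (GG_bd M hM xl zl i κ q CM hM2) xl P i
  rw [Zf_eq, Zf_eq, ← integral_sub (hI b) (hI a), ← integral_const_mul]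
  refine integral_congr_ae ?_
  have h3 : ∀ᵐ y : Eu K × ℝ, g0 xl P i y ≠ a := by
    rw [ae_iff]
    simp only [ne_eq, not_not]
    exact null_level xl P i a
  filter_upwards [h3] with y hy
  unfold hl
  simp only
  congr 1
  by_cases h1 : g0 xl P i y ≤ a
  · have h2 : ¬ a ≤ g0 xl P i y := fun h => hy (le_antisymm h1 h)
    rw [if_neg (fun h => h2 h.1), if_pos h1, if_pos (h1.trans hab), sub_self]
  · rw [not_le] at h1
    by_cases h2 : g0 xl P i y ≤ b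
    · rw [if_pos ⟨h1.le, h2⟩, if_pos h2, if_neg (not_le.2 h1), sub_zero]
    · rw [if_neg (fun h => h2 h.2), if_neg h2, if_neg (not_le.2 h1), sub_zero]

theorem lim_one (hCHG : T_CHG) (M : ℝ → ℝ) (hM : GoodM M) (xl : Fin n → Eu K)
    (zl : Fin n → ℝ) (P : ℝ) (i j : Fin n) (hij : xl i = xl j) (κ : ℝ) (hκ : 0 < κ)
    (hz : zl i - zl j = κ) (a b : ℝ) (hab : a ≤ b) :
    Integrable (hl M xl zl P i κ a b) ∧
    Tendsto (fun k : ℕ => ∫ σ in a..b, rq k M xl zl P i j σ) atTop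
      (𝓝 ((1 / (2 * κ)) * ∫ w, hl M xl zl P i κ a b w)) := by
  obtain ⟨Cp, hCp, hp⟩ := dphi_bdd
  obtain ⟨CM, hCM, hM2⟩ := M2_bdd M hM n
  have hchg := fun k => hCHG n K M hM k xl zl P i j hij κ hκ hz a b hab
  have hmeas : ∀ k, AEStronglyMeasurable (hk k M xl zl P i κ a b) volume :=
    fun k => (hchg k).1.aestronglyMeasurable
  have hbd := hk_bound M xl zl P i κ a b Cp CM hCp hCM hp hM2
  have hlim : ∀ᵐ w : (ℝ × ℝ) × (Eu K × ℝ),
      Tendsto (fun k : ℕ => hk k M xl zl P i κ a b w) atTop (𝓝 (hl M xl zl P i κ a b w)) := by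
    filter_upwards [ae_good xl P i a b] with w hw
    exact hk_tendsto M hM xl zl P i κ hκ a b w hw.1 hw.2.1 hw.2.2
  have hbI := integrable_bbox xl i (|b + 1 + ‖xl i‖ ^ 2 + zl i ^ 2 - P| + 1) (Cp * Cp * CM)
  constructor
  · refine hbI.mono' (aestronglyMeasurable_of_tendsto_ae atTop hmeas hlim) ?_
    filter_upwards [hlim] with w hw
    exact le_of_tendsto hw.norm (Eventually.of_forall fun k => hbd k w)
  · have hd := tendsto_integral_of_dominated_convergence _ hmeas hbI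
      (fun k => Eventually.of_forall (hbd k)) hlim
    refine (hd.const_mul (1 / (2 * κ))).congr fun k => ?_
    exact (hchg k).2.symm

theorem ql (hCHG : T_CHG) (hCONE : T_CONE) : T_QL := by
  intro n K hK M hM xl zl P i j hij κ hκ hz s ε hε
  obtain ⟨hI1, hT1⟩ := lim_one hCHG M hM xl zl P i j hij κ hκ hz (s + ε) (s + 2 * ε)
    (by linarith)
  obtain ⟨hI2, hT2⟩ := lim_one hCHG M hM xl zl P i j hij κ hκ hz s (s + ε) (by linarith)
  refine ⟨_, ?_, hT1.sub hT2⟩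
  obtain ⟨CM, hCM, hM2⟩ := M2_bdd M hM n
  have hc : 0 ≤ 1 / (2 * κ) := by positivity
  rw [← mul_sub]
  refine mul_nonneg hc ?_
  rw [← integral_sub hI1 hI2]
  have e : (volume : Measure ((ℝ × ℝ) × (Eu K × ℝ))) =
      (volume : Measure (ℝ × ℝ)).prod (volume : Measure (Eu K × ℝ)) := rfl
  have hI : Integrable (fun w => hl M xl zl P i κ (s + ε) (s + 2 * ε) w -
      hl M xl zl P i κ s (s + ε) w) ((volume : Measure (ℝ × ℝ)).prod
        (volume : Measure (Eu K × ℝ))) := hI1.sub hI2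
  rw [e, integral_prod _ hI]
  refine integral_nonneg_of_ae ?_
  rw [e] at hI1 hI2
  filter_upwards [hI1.prod_right_ae, hI2.prod_right_ae] with q hq1 hq2
  show 0 ≤ ∫ y, (hl M xl zl P i κ (s + ε) (s + 2 * ε) (q, y) - hl M xl zl P i κ s (s + ε) (q, y))
  rw [integral_sub hq1 hq2, inner_eq M hM xl zl P i κ _ _ (by linarith) q CM hM2,
    inner_eq M hM xl zl P i κ _ _ (by linarith) q CM hM2, ← mul_sub]
  refine mul_nonneg (mul_nonneg_of_nonpos_of_nonpos (phk_deriv 0 _) (phk_deriv 0 _)) ?_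
  have h := hCONE K hK (GG M xl zl i κ q) (GG_meas M hM xl zl i κ q) CM
    (GG_bd M hM xl zl i κ q CM hM2) (fun τ hτ x => GG_smul M xl zl i κ q τ hτ x)
    (xl i) P s ε hε
  linarith

end Pool.Agent.H47.KPO
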