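import Pool.Agent.H52.KP.Targets

/-! QL, first part: pointwise limits. -/

set_option autoImplicit false

open MeasureTheory Metric Set Topology Filter
open scoped RealInnerProductSpace

namespace Pool.Agent.H47.KPO

open Pool.Agent.H52.KP Pool.Agent.H65k

variable {n K : ℕ}

open Classical in
/-- limits of the smoothed indicators -/
noncomputable def lam (xl : Fin n → Eu K) (zl : Fin n → ℝ) (i : Fin n) (κ : ℝ) (q : ℝ × ℝ)
    (x : Eu K) (l : Fin n) : ℝ :=
  if xl l = xl i then phk 0 (q.1 - (q.2 - q.1) * (zl l - zl i) / κ)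
  else if 0 < ⟪x, xl l - xl i⟫ then 1 else 0

theorem lam_nonneg (xl : Fin n → Eu K) (zl : Fin n → ℝ) (i : Fin n) (κ : ℝ) (q : ℝ × ℝ)
    (x : Eu K) (l : Fin n) : 0 ≤ lam xl zl i κ q x l := by
  unfold lam
  split_ifs
  · exact phk_nonneg _ _
  · exact zero_le_one
  · exact le_rfl

theorem lam_le_one (xl : Fin n → Eu K) (zl : Fin n → ℝ) (i : Fin n) (κ : ℝ) (q : ℝ × ℝ)
    (x : Eu K) (l : Fin n) : lam xl zl i κ q x l ≤ 1 := by
  unfold lam
  split_ifs
  · exact phk_le_one _ _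
  · exact le_rfl
  · exact zero_le_one

theorem lam_meas (xl : Fin n → Eu K) (zl : Fin n → ℝ) (i : Fin n) (κ : ℝ) (q : ℝ × ℝ)
    (l : Fin n) : Measurable fun x : Eu K => lam xl zl i κ q x l := by
  unfold lam
  by_cases h : xl l = xl i
  · simp only [h, if_true]
    exact measurable_const
  · simp only [h, if_false]
    refine Measurable.ite ?_ measurable_const measurable_const
    exact (isOpen_lt continuous_const (continuous_id.inner continuous_const)).measurableSet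

theorem lam_smul (xl : Fin n → Eu K) (zl : Fin n → ℝ) (i : Fin n) (κ : ℝ) (q : ℝ × ℝ)
    (x : Eu K) (l : Fin n) (τ : ℝ) (hτ : 0 < τ) :
    lam xl zl i κ q (τ • x) l = lam xl zl i κ q x l := by
  unfold lam
  have h : (0 < ⟪τ • x, xl l - xl i⟫) ↔ 0 < ⟪x, xl l - xl i⟫ := by
    rw [real_inner_smul_left]
    exact mul_pos_iff_of_pos_left hτ
  simp only [h]

/-- the limit density -/
noncomputable def GG (M : ℝ → ℝ) (xl : Fin n → Eu K) (zl : Fin n → ℝ) (i : Fin n) (κ : ℝ)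
    (q : ℝ × ℝ) (x : Eu K) : ℝ :=
  -(deriv (deriv M) (∑ l, lam xl zl i κ q x l))

/-- the limit power function -/
noncomputable def g0 (xl : Fin n → Eu K) (P : ℝ) (i : Fin n) (y : Eu K × ℝ) : ℝ :=
  ‖y.1‖ ^ 2 + y.2 ^ 2 - 2 * ⟪y.1, xl i⟫ + P

/-- the limit integrand -/
noncomputable def hl (M : ℝ → ℝ) (xl : Fin n → Eu K) (zl : Fin n → ℝ) (P : ℝ) (i : Fin n)
    (κ a b : ℝ) (w : (ℝ × ℝ) × (Eu K × ℝ)) : ℝ :=
  (deriv (phk 0) w.1.1 * deriv (phk 0) w.1.2) *
    (if a ≤ g0 xl P i w.2 ∧ g0 xl P i w.2 ≤ b then GG M xl zl i κ w.1 w.2.1 else 0)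

theorem cont_g0 (xl : Fin n → Eu K) (P : ℝ) (i : Fin n) : Continuous (g0 xl P i) := by
  unfold g0
  fun_prop

theorem gq_sub (xl : Fin n → Eu K) (zl : Fin n → ℝ) (P : ℝ) (i l : Fin n) (x : Eu K) (z η : ℝ) :
    gq xl zl P l x z η - gq xl zl P i x z η
      = -2 * ⟪x, xl l - xl i⟫ - 2 * z * (zl l - zl i) := by
  unfold gq
  rw [inner_sub_right]
  ring

theorem tend_inv (c : ℝ) : Tendsto (fun k : ℕ => c / ((k : ℝ) + 1)) atTop (𝓝 0) := by
  have h := (tendsto_one_div_add_atTop_nhds_zero_nat (𝕜 := ℝ)).const_mul c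
  rw [mul_zero] at h
  refine h.congr fun k => ?_
  rw [mul_one_div]

theorem tend_z (κ : ℝ) (q : ℝ × ℝ) :
    Tendsto (fun k : ℕ => (q.2 - q.1) / (2 * κ * ((k : ℝ) + 1))) atTop (𝓝 0) := by
  have h := tend_inv ((q.2 - q.1) / (2 * κ))
  refine h.congr fun k => ?_
  rw [div_div]

theorem term_tendsto (xl : Fin n → Eu K) (zl : Fin n → ℝ) (P : ℝ) (i : Fin n) (κ : ℝ)
    (hκ : 0 < κ) (q : ℝ × ℝ) (x : Eu K) (η : ℝ) (l : Fin n)
    (hx : xl l ≠ xl i → ⟪x, xl l - xl i⟫ ≠ 0) :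
    Tendsto (fun k : ℕ => phk k
      (gq xl zl P l x ((q.2 - q.1) / (2 * κ * ((k : ℝ) + 1))) η
          - gq xl zl P i x ((q.2 - q.1) / (2 * κ * ((k : ℝ) + 1))) η
          + q.1 / ((k : ℝ) + 1))) atTop (𝓝 (lam xl zl i κ q x l)) := by
  by_cases h : xl l = xl i
  · refine tendsto_const_nhds.congr fun k => ?_
    have hk : ((k : ℝ) + 1) ≠ 0 := by positivity
    unfold lam
    rw [if_pos h, gq_sub, h, sub_self, inner_zero_right]
    unfold phk
    congr 1
    field_simp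
    push_cast
    ring
  · have hp := hx h
    have hlim : Tendsto (fun k : ℕ =>
        gq xl zl P l x ((q.2 - q.1) / (2 * κ * ((k : ℝ) + 1))) η
          - gq xl zl P i x ((q.2 - q.1) / (2 * κ * ((k : ℝ) + 1))) η
          + q.1 / ((k : ℝ) + 1)) atTop (𝓝 (-2 * ⟪x, xl l - xl i⟫)) := by
      have h1 := ((tend_z κ q).const_mul 2).mul_const (zl l - zl i)
      have h2 := (h1.const_sub (-2 * ⟪x, xl l - xl i⟫)).add (tend_inv q.1)
      have h3 : -2 * ⟪x, xl l - xl i⟫ - 2 * 0 * (zl l - zl i) + 0 = -2 * ⟪x, xl l - xl i⟫ := by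
        ring
      rw [h3] at h2
      refine h2.congr fun k => ?_
      rw [gq_sub]
    unfold lam
    rw [if_neg h]
    rcases lt_or_gt_of_ne hp with hp | hp
    · rw [if_neg (not_lt.2 hp.le)]
      refine tendsto_const_nhds.congr' ?_
      have h1 : -⟪x, xl l - xl i⟫ < -2 * ⟪x, xl l - xl i⟫ := by linarith
      have h2 : ∀ᶠ k : ℕ in atTop, 1 / (-⟪x, xl l - xl i⟫) ≤ (k : ℝ) :=
        tendsto_natCast_atTop_atTop.eventually_ge_atTop _
      filter_upwards [hlim.eventually_const_lt h1, h2] with k hk1 hk2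
      symm
      refine phk_zero k ?_
      rw [div_le_iff₀ (by linarith)] at hk2
      have h3 : (0 : ℝ) ≤ k := Nat.cast_nonneg k
      nlinarith only [hk1, hk2, hp, h3]
    · rw [if_pos hp]
      refine tendsto_const_nhds.congr' ?_
      have h1 : -2 * ⟪x, xl l - xl i⟫ < 0 := by linarith
      filter_upwards [hlim.eventually_lt_const h1] with k hk1
      exact (phk_one k hk1.le).symm

theorem g_tendsto (xl : Fin n → Eu K) (zl : Fin n → ℝ) (P : ℝ) (i : Fin n) (κ : ℝ)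
    (q : ℝ × ℝ) (x : Eu K) (η : ℝ) :
    Tendsto (fun k : ℕ => gq xl zl P i x ((q.2 - q.1) / (2 * κ * ((k : ℝ) + 1))) η
      - q.1 / ((k : ℝ) + 1)) atTop (𝓝 (g0 xl P i (x, η))) := by
  have hc : Continuous fun z : ℝ => gq xl zl P i x z η := by
    unfold gq
    fun_prop
  have h1 := (hc.tendsto 0).comp (tend_z κ q)
  have h2 := h1.sub (tend_inv q.1)
  have h3 : gq xl zl P i x 0 η - 0 = g0 xl P i (x, η) := by
    unfold gq g0
    ring
  rw [h3] at h2
  exact h2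

theorem hk_tendsto (M : ℝ → ℝ) (hM : GoodM M) (xl : Fin n → Eu K) (zl : Fin n → ℝ) (P : ℝ)
    (i : Fin n) (κ : ℝ) (hκ : 0 < κ) (a b : ℝ) (w : (ℝ × ℝ) × (Eu K × ℝ))
    (hx : ∀ l, xl l ≠ xl i → ⟪w.2.1, xl l - xl i⟫ ≠ 0) (ha : g0 xl P i w.2 ≠ a)
    (hb : g0 xl P i w.2 ≠ b) :
    Tendsto (fun k : ℕ => hk k M xl zl P i κ a b w) atTop (𝓝 (hl M xl zl P i κ a b w)) := by
  obtain ⟨q, x, η⟩ := w
  unfold hk hl
  refine Tendsto.const_mul _ ?_
  have hM2 : Continuous (deriv (deriv M)) := (contDiff_deriv_of hM.1).continuous_deriv le_rfl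
  have hG : Tendsto (fun k : ℕ => -(deriv (deriv M) (∑ l, phk k
        (gq xl zl P l x ((q.2 - q.1) / (2 * κ * ((k : ℝ) + 1))) η
          - gq xl zl P i x ((q.2 - q.1) / (2 * κ * ((k : ℝ) + 1))) η
          + q.1 / ((k : ℝ) + 1))))) atTop (𝓝 (GG M xl zl i κ q x)) := by
    refine Tendsto.neg ?_
    refine (hM2.tendsto _).comp ?_
    exact tendsto_finsetSum _ fun l _ => term_tendsto xl zl P i κ hκ q x η l (hx l)
  have hg := g_tendsto xl zl P i κ q x η
  have hiff : ∀ᶠ k : ℕ in atTop,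
      ((a ≤ gq xl zl P i x ((q.2 - q.1) / (2 * κ * ((k : ℝ) + 1))) η - q.1 / ((k : ℝ) + 1) ∧
        gq xl zl P i x ((q.2 - q.1) / (2 * κ * ((k : ℝ) + 1))) η - q.1 / ((k : ℝ) + 1) ≤ b) ↔
      (a ≤ g0 xl P i (x, η) ∧ g0 xl P i (x, η) ≤ b)) := by
    have h1 : ∀ᶠ k : ℕ in atTop,
        (a ≤ gq xl zl P i x ((q.2 - q.1) / (2 * κ * ((k : ℝ) + 1))) η - q.1 / ((k : ℝ) + 1) ↔
          a ≤ g0 xl P i (x, η)) := by
      rcases lt_or_gt_of_ne ha with h | h
      · filter_upwards [hg.eventually_lt_const h] with k hk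
        exact ⟨fun h2 => absurd hk (not_lt.2 h2), fun h2 => absurd h (not_lt.2 h2)⟩
      · filter_upwards [hg.eventually_const_lt h] with k hk
        exact ⟨fun _ => h.le, fun _ => hk.le⟩
    have h2 : ∀ᶠ k : ℕ in atTop,
        (gq xl zl P i x ((q.2 - q.1) / (2 * κ * ((k : ℝ) + 1))) η - q.1 / ((k : ℝ) + 1) ≤ b ↔
          g0 xl P i (x, η) ≤ b) := by
      rcases lt_or_gt_of_ne hb with h | h
      · filter_upwards [hg.eventually_lt_const h] with k hk
        exact ⟨fun _ => h.le, fun _ => hk.le⟩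
      · filter_upwards [hg.eventually_const_lt h] with k hk
        exact ⟨fun h2 => absurd hk (not_lt.2 h2), fun h2 => absurd h (not_lt.2 h2)⟩
    filter_upwards [h1, h2] with k h1 h2
    rw [h1, h2]
  by_cases h : a ≤ g0 xl P i (x, η) ∧ g0 xl P i (x, η) ≤ b
  · rw [if_pos h]
    refine hG.congr' ?_
    filter_upwards [hiff] with k hk
    exact (if_pos (hk.2 h)).symm
  · rw [if_neg h]
    refine tendsto_const_nhds.congr' ?_
    filter_upwards [hiff] with k hk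
    exact (if_neg fun h2 => h (hk.1 h2)).symm

end Pool.Agent.H47.KPO
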