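import Pool.Agent.H47.KPO.QLa

/-! QL, second part: null sets and bounds. -/

set_option autoImplicit false

open MeasureTheory Metric Set Topology Filter
open scoped RealInnerProductSpace

namespace Pool.Agent.H47.KPO

open Pool.Agent.H52.KP Pool.Agent.H65k

variable {n K : ℕ}

theorem null_hyper (v : Eu K) (hv : v ≠ 0) : volume {x : Eu K | ⟪x, v⟫ = 0} = 0 := by
  have h1 : {x : Eu K | ⟪x, v⟫ = 0} = (((ℝ ∙ v)ᗮ : Submodule ℝ (Eu K)) : Set (Eu K)) := by
    ext x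
    rw [SetLike.mem_coe, Submodule.mem_orthogonal_singleton_iff_inner_left]
    rfl
  rw [h1]
  refine Measure.addHaar_submodule volume _ ?_
  intro h2
  have h3 : v ∈ ((ℝ ∙ v)ᗮ : Submodule ℝ (Eu K)) := by
    rw [h2]
    trivial
  rw [Submodule.mem_orthogonal_singleton_iff_inner_left] at h3
  exact hv (inner_self_eq_zero.1 h3)

theorem null_level (xl : Fin n → Eu K) (P : ℝ) (i : Fin n) (a : ℝ) :
    volume {y : Eu K × ℝ | g0 xl P i y = a} = 0 := by
  rw [Measure.volume_eq_prod]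
  have hm : MeasurableSet {y : Eu K × ℝ | g0 xl P i y = a} :=
    (isClosed_eq (cont_g0 xl P i) continuous_const).measurableSet
  rw [Measure.measure_prod_null hm]
  refine Eventually.of_forall fun x => ?_
  show volume (Prod.mk x ⁻¹' {y : Eu K × ℝ | g0 xl P i y = a}) = 0
  set t : ℝ := a - ‖x‖ ^ 2 + 2 * ⟪x, xl i⟫ - P with ht
  have hsub : (Prod.mk x ⁻¹' {y : Eu K × ℝ | g0 xl P i y = a}) ⊆ {√t, -√t} := by
    intro η hη
    have h1 : ‖x‖ ^ 2 + η ^ 2 - 2 * ⟪x, xl i⟫ + P = a := hη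
    have h2 : η ^ 2 = t := by
      rw [ht]
      linarith
    have h3 : |η| = √t := by
      rw [← h2, Real.sqrt_sq_eq_abs]
    rcases abs_choice η with h | h
    · left
      rw [← h3, h]
    · right
      rw [mem_singleton_iff, ← h3, h, neg_neg]
  have hfin : ({√t, -√t} : Set ℝ).Finite := by
    exact (finite_singleton _).insert _
  exact measure_mono_null hsub (hfin.measure_zero volume)

theorem ae_good (xl : Fin n → Eu K) (P : ℝ) (i : Fin n) (a b : ℝ) :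
    ∀ᵐ w : (ℝ × ℝ) × (Eu K × ℝ), (∀ l, xl l ≠ xl i → ⟪w.2.1, xl l - xl i⟫ ≠ 0) ∧
      g0 xl P i w.2 ≠ a ∧ g0 xl P i w.2 ≠ b := by
  have h1 : ∀ᵐ x : Eu K, ∀ l, xl l ≠ xl i → ⟪x, xl l - xl i⟫ ≠ 0 := by
    rw [ae_all_iff]
    intro l
    by_cases hl : xl l = xl i
    · exact Eventually.of_forall fun x h => absurd hl h
    · have h2 : ∀ᵐ x : Eu K, ⟪x, xl l - xl i⟫ ≠ 0 := by
        rw [ae_iff]
        simp only [ne_eq, not_not]
        exact null_hyper _ (sub_ne_zero.2 hl)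
      filter_upwards [h2] with x hx _
      exact hx
  have h2 : ∀ᵐ y : Eu K × ℝ, ∀ l, xl l ≠ xl i → ⟪y.1, xl l - xl i⟫ ≠ 0 := by
    rw [Measure.volume_eq_prod]
    exact Measure.quasiMeasurePreserving_fst.ae h1
  have h3 : ∀ c : ℝ, ∀ᵐ y : Eu K × ℝ, g0 xl P i y ≠ c := by
    intro c
    rw [ae_iff]
    simp only [ne_eq, not_not]
    exact null_level xl P i c
  have h4 : ∀ᵐ y : Eu K × ℝ, (∀ l, xl l ≠ xl i → ⟪y.1, xl l - xl i⟫ ≠ 0) ∧
      g0 xl P i y ≠ a ∧ g0 xl P i y ≠ b := by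
    filter_upwards [h2, h3 a, h3 b] with y h5 h6 h7
    exact ⟨h5, h6, h7⟩
  have e : (volume : Measure ((ℝ × ℝ) × (Eu K × ℝ))) =
      (volume : Measure (ℝ × ℝ)).prod (volume : Measure (Eu K × ℝ)) := rfl
  rw [e]
  exact Measure.quasiMeasurePreserving_snd.ae h4

theorem dphi_supp (t : ℝ) (h : deriv (phk 0) t ≠ 0) : 0 ≤ t ∧ t ≤ 1 := by
  constructor
  · by_contra h1
    rw [not_le] at h1
    apply h
    have h2 : phk 0 =ᶠ[𝓝 t] fun _ => (1 : ℝ) := by
      filter_upwards [gt_mem_nhds h1] with s hs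
      exact phk_one 0 hs.le
    rw [h2.deriv_eq, deriv_const]
  · by_contra h1
    rw [not_le] at h1
    exact h (deriv_zero_of (phk_zero' 0) h1)

theorem dphi_cont : Continuous (deriv (phk 0)) :=
  (phk_contDiff 0).continuous_deriv (by norm_num)

theorem dphi_bdd : ∃ C : ℝ, 0 ≤ C ∧ ∀ t, |deriv (phk 0) t| ≤ C := by
  obtain ⟨C, hC⟩ := isCompact_Icc.exists_bound_of_continuousOn (s := Icc (0 : ℝ) 1)
    (f := deriv (phk 0)) dphi_cont.continuousOn
  refine ⟨|C|, abs_nonneg _, fun t => ?_⟩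
  by_cases h : deriv (phk 0) t = 0
  · rw [h, abs_zero]
    exact abs_nonneg _
  · have h1 := hC t (dphi_supp t h)
    rw [Real.norm_eq_abs] at h1
    exact h1.trans (le_abs_self _)

theorem cont_M2 (M : ℝ → ℝ) (hM : GoodM M) : Continuous (deriv (deriv M)) :=
  (contDiff_deriv_of hM.1).continuous_deriv le_rfl

theorem M2_bdd (M : ℝ → ℝ) (hM : GoodM M) (n : ℕ) :
    ∃ C : ℝ, 0 ≤ C ∧ ∀ t : ℝ, 0 ≤ t → t ≤ n → |deriv (deriv M) t| ≤ C := by
  obtain ⟨C, hC⟩ := isCompact_Icc.exists_bound_of_continuousOn (s := Icc (0 : ℝ) n)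
    (f := deriv (deriv M)) (cont_M2 M hM).continuousOn
  refine ⟨|C|, abs_nonneg _, fun t h0 h1 => ?_⟩
  have h2 := hC t ⟨h0, h1⟩
  rw [Real.norm_eq_abs] at h2
  exact h2.trans (le_abs_self _)

theorem sum_bd (f : Fin n → ℝ) (h0 : ∀ l, 0 ≤ f l) (h1 : ∀ l, f l ≤ 1) :
    0 ≤ ∑ l, f l ∧ ∑ l, f l ≤ n := by
  refine ⟨Finset.sum_nonneg fun l _ => h0 l, ?_⟩
  refine (Finset.sum_le_sum fun l _ => h1 l).trans ?_
  simp

/-- the box -/
def box (xl : Fin n → Eu K) (i : Fin n) (r : ℝ) : Set (Eu K × ℝ) :=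
  closedBall (xl i) r ×ˢ closedBall (0 : ℝ) r

theorem box_compact (xl : Fin n → Eu K) (i : Fin n) (r : ℝ) : IsCompact (box xl i r) :=
  (isCompact_closedBall _ _).prod (isCompact_closedBall _ _)

/-- the big box -/
def bbox (xl : Fin n → Eu K) (i : Fin n) (r : ℝ) : Set ((ℝ × ℝ) × (Eu K × ℝ)) :=
  (Icc (0 : ℝ) 1 ×ˢ Icc (0 : ℝ) 1) ×ˢ box xl i r

theorem bbox_compact (xl : Fin n → Eu K) (i : Fin n) (r : ℝ) : IsCompact (bbox xl i r) :=
  (isCompact_Icc.prod isCompact_Icc).prod (box_compact xl i r)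

theorem integrable_bbox (xl : Fin n → Eu K) (i : Fin n) (r C : ℝ) :
    Integrable ((bbox xl i r).indicator fun _ => C) := by
  rw [integrable_indicator_iff (bbox_compact xl i r).measurableSet]
  exact integrableOn_const (bbox_compact xl i r).measure_lt_top.ne

theorem integrable_box (xl : Fin n → Eu K) (i : Fin n) (r C : ℝ) :
    Integrable ((box xl i r).indicator fun _ => C) := by
  rw [integrable_indicator_iff (box_compact xl i r).measurableSet]
  exact integrableOn_const (box_compact xl i r).measure_lt_top.ne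

theorem mem_box (xl : Fin n → Eu K) (zl : Fin n → ℝ) (P : ℝ) (i : Fin n) (x : Eu K)
    (z η u b : ℝ) (hu : u ≤ 1) (h : gq xl zl P i x z η - u ≤ b) :
    (x, η) ∈ box xl i (|b + 1 + ‖xl i‖ ^ 2 + zl i ^ 2 - P| + 1) := by
  set R2 : ℝ := b + 1 + ‖xl i‖ ^ 2 + zl i ^ 2 - P with hR2
  have h1 : ‖x - xl i‖ ^ 2 + η ^ 2 + (z - zl i) ^ 2 ≤ R2 := by
    have h2 : ‖x - xl i‖ ^ 2 = ‖x‖ ^ 2 - 2 * ⟪x, xl i⟫ + ‖xl i‖ ^ 2 := by
      rw [norm_sub_sq_real]
    unfold gq at h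
    rw [h2, hR2]
    nlinarith only [h, hu]
  have h3 : R2 ≤ (|R2| + 1) ^ 2 := by
    have := le_abs_self R2
    have := abs_nonneg R2
    nlinarith only [le_abs_self R2, abs_nonneg R2]
  have h4 : 0 ≤ |R2| + 1 := by positivity
  constructor
  · rw [mem_closedBall, dist_eq_norm]
    refine le_of_sq_le_sq ?_ h4
    nlinarith only [h1, h3, sq_nonneg η, sq_nonneg (z - zl i)]
  · rw [mem_closedBall, dist_zero_right, Real.norm_eq_abs]
    refine le_of_sq_le_sq ?_ h4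
    rw [sq_abs]
    nlinarith only [h1, h3, sq_nonneg ‖x - xl i‖, sq_nonneg (z - zl i)]

end Pool.Agent.H47.KPO
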