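import Pool.Agent.H47.KPO.Base

/-! UC: continuity of the volume functional in the configuration. -/

set_option autoImplicit false

open MeasureTheory Metric Set Topology Filter
open scoped RealInnerProductSpace

namespace Pool.Agent.H47.KPO

open Pool.Agent.H52.KP Pool.Agent.H65k

theorem null_sphere {N : ℕ} (hN : 1 ≤ N) (a : Eu N) (t : ℝ) :
    volume {y : Eu N | ‖y - a‖ ^ 2 = t} = 0 := by
  have : Nonempty (Fin N) := ⟨⟨0, hN⟩⟩
  have : Nontrivial (Eu N) := inferInstance
  have h1 : {y : Eu N | ‖y - a‖ ^ 2 = t} ⊆ sphere a (Real.sqrt t) := by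
    intro y hy
    have h2 : ‖y - a‖ ^ 2 = t := hy
    rw [mem_sphere, dist_eq_norm, ← h2, Real.sqrt_sq (norm_nonneg _)]
  exact measure_mono_null h1 (Measure.addHaar_sphere volume a _)

theorem uc : T_UC := by
  intro n N hN M hM ρ s
  rw [continuous_iff_continuousAt]
  intro c₀
  unfold U
  have hT : 0 ≤ |s| := abs_nonneg _
  refine continuousAt_of_dominated
    (bound := (closedBall (0 : Eu N) ((‖c₀‖ + 1) + (∑ i, |ρ i|) + |s| + 1)).indicator
      fun _ => bd M n) ?_ ?_ (integrable_bd _ _) ?_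
  · exact Eventually.of_forall fun c => meas_int M hM ρ s c
  · filter_upwards [ball_mem_nhds c₀ one_pos] with c hc
    refine Eventually.of_forall fun y => dom M ρ s c (‖c₀‖ + 1) |s| ?_ (le_abs_self s) hT y
    have h1 : ‖c - c₀‖ < 1 := by simpa [dist_eq_norm] using hc
    have h2 := norm_le_norm_add_norm_sub' c c₀
    linarith
  · have h1 : ∀ l : Fin n, ∀ᵐ y : Eu N, pw ρ l (c₀, y) ≠ s := by
      intro l
      rw [ae_iff]
      refine measure_mono_null ?_ (null_sphere hN (c₀ l) (s + ρ l ^ 2))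
      intro y hy
      have h2 : pw ρ l (c₀, y) = s := by simpa using hy
      have h3 : ‖y - c₀ l‖ ^ 2 - ρ l ^ 2 = s := h2
      show ‖y - c₀ l‖ ^ 2 = s + ρ l ^ 2
      linarith
    filter_upwards [ae_all_iff.2 h1] with y hy
    have h2 : ∀ l : Fin n, ∀ᶠ c in 𝓝 c₀, (pw ρ l (c, y) ≤ s ↔ pw ρ l (c₀, y) ≤ s) := by
      intro l
      have hc : ContinuousAt (fun c : Fin n → Eu N => pw ρ l (c, y)) c₀ :=
        (continuous_pw_left ρ l y).continuousAt
      rcases lt_or_gt_of_ne (hy l) with h | h
      · filter_upwards [hc.eventually_lt continuousAt_const h] with c hc'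
        exact ⟨fun _ => h.le, fun _ => hc'.le⟩
      · filter_upwards [continuousAt_const.eventually_lt hc h] with c hc'
        exact ⟨fun h3 => absurd hc' (not_lt.2 h3), fun h3 => absurd h (not_lt.2 h3)⟩
    have h3 : ∀ᶠ c in 𝓝 c₀, M (cnt ρ s c₀ y) - M 0 = M (cnt ρ s c y) - M 0 := by
      filter_upwards [eventually_all.2 h2] with c hc
      have h4 : cnt ρ s c₀ y = cnt ρ s c y := by
        unfold cnt
        congr 1
        exact Finset.filter_congr fun l _ => (hc l).symm
      rw [h4]
    exact continuousAt_const.congr h3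

end Pool.Agent.H47.KPO
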