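import Pool.Agent.H47.KPO.Base

/-! UR: continuity from the right. -/

set_option autoImplicit false

open MeasureTheory Metric Set Topology Filter
open scoped RealInnerProductSpace

namespace Pool.Agent.H47.KPO

open Pool.Agent.H52.KP Pool.Agent.H65k

theorem ur : T_UR := by
  intro n N M hM ρ s c
  unfold U
  have hT : 0 ≤ |s| + 1 := by positivity
  have hev : ∀ᶠ ε : ℝ in 𝓝[>] 0, 0 < ε ∧ ε < 1 := by
    filter_upwards [self_mem_nhdsWithin, mem_nhdsWithin_of_mem_nhds (Iio_mem_nhds one_pos)]
      with ε h1 h2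
    exact ⟨h1, h2⟩
  refine tendsto_integral_filter_of_dominated_convergence
    ((closedBall (0 : Eu N) (‖c‖ + (∑ i, |ρ i|) + (|s| + 1) + 1)).indicator fun _ => bd M n)
    ?_ ?_ (integrable_bd _ _) ?_
  · exact Eventually.of_forall fun ε => meas_int M hM ρ (s + ε) c
  · filter_upwards [hev] with ε hε
    refine Eventually.of_forall fun y => dom M ρ (s + ε) c ‖c‖ (|s| + 1) le_rfl ?_ hT y
    have := le_abs_self s
    linarith [hε.2]
  · refine Eventually.of_forall fun y => ?_
    have h1 : ∀ l : Fin n, ∀ᶠ ε : ℝ in 𝓝[>] 0, (pw ρ l (c, y) ≤ s + ε ↔ pw ρ l (c, y) ≤ s) := by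
      intro l
      by_cases h : pw ρ l (c, y) ≤ s
      · filter_upwards [hev] with ε hε
        exact ⟨fun _ => h, fun _ => by linarith [hε.1]⟩
      · have h2 : 0 < pw ρ l (c, y) - s := by linarith [not_le.1 h]
        filter_upwards [mem_nhdsWithin_of_mem_nhds (Iio_mem_nhds h2)] with ε hε
        have h3 : ε < pw ρ l (c, y) - s := hε
        exact ⟨fun h4 => by linarith, fun h4 => absurd h4 h⟩
    have h2 : ∀ᶠ ε : ℝ in 𝓝[>] 0, cnt ρ s c y = cnt ρ (s + ε) c y := by
      filter_upwards [eventually_all.2 h1] with ε hε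
      unfold cnt
      congr 1
      exact Finset.filter_congr fun l _ => (hε l).symm
    refine Tendsto.congr' ?_ tendsto_const_nhds
    filter_upwards [h2] with ε hε
    rw [hε]

end Pool.Agent.H47.KPO
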